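import Pool.Agent.helper90.DH.Iface

set_option autoImplicit false

open Filter Topology MeasureTheory
open scoped commutatorElement

namespace Pool.Agent.helper90.DH

open Pool.Agent.helper64.D2

/-- bounded measurable functions which vanish outside `[0,1]`. -/
def GALL_B (g : ℝ → ℝ) : Prop := Measurable g ∧ (∃ B : ℝ, ∀ x, |g x| ≤ B) ∧ ∀ x, x ∉ Set.Icc (0 : ℝ) 1 → g x = 0

theorem GALL_int {g : ℝ → ℝ} (h : GALL_B g) : Integrable g := by
  obtain ⟨hm, ⟨B, hB⟩, h0⟩ := h
  have h1 : IntegrableOn g (Set.Icc (0 : ℝ) 1) := by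
    refine Measure.integrableOn_of_bounded (M := B) ?_ hm.aestronglyMeasurable ?_
    · simp
    · exact Filter.Eventually.of_forall fun x => by rw [Real.norm_eq_abs]; exact hB x
  exact (integrableOn_iff_integrable_of_support_subset (fun x hx => by
    by_contra hc
    exact hx (h0 x hc))).1 h1

theorem GALL_mul {g h : ℝ → ℝ} (hg : GALL_B g) (hh : GALL_B h) : GALL_B (fun x => g x * h x) := by
  obtain ⟨hm, ⟨B, hB⟩, h0⟩ := hg
  obtain ⟨hm', ⟨B', hB'⟩, _⟩ := hh
  refine ⟨hm.mul hm', ⟨B * B', fun x => ?_⟩, fun x hx => by simp [h0 x hx]⟩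
  rw [abs_mul]
  exact mul_le_mul (hB x) (hB' x) (abs_nonneg _) ((abs_nonneg _).trans (hB x))

theorem GALL_cm {g : ℝ → ℝ} (a : ℝ) (hg : GALL_B g) : GALL_B (fun x => a * g x) := by
  obtain ⟨hm, ⟨B, hB⟩, h0⟩ := hg
  refine ⟨hm.const_mul a, ⟨|a| * B, fun x => ?_⟩, fun x hx => by simp [h0 x hx]⟩
  rw [abs_mul]
  exact mul_le_mul_of_nonneg_left (hB x) (abs_nonneg _)

theorem GALL_add {g h : ℝ → ℝ} (hg : GALL_B g) (hh : GALL_B h) : GALL_B (fun x => g x + h x) := by
  obtain ⟨hm, ⟨B, hB⟩, h0⟩ := hg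
  obtain ⟨hm', ⟨B', hB'⟩, h0'⟩ := hh
  refine ⟨hm.add hm', ⟨B + B', fun x => ?_⟩, fun x hx => by simp [h0 x hx, h0' x hx]⟩
  exact (abs_add_le _ _).trans (add_le_add (hB x) (hB' x))

theorem GALL_sum {ι : Type} (s : Finset ι) (g : ι → ℝ → ℝ) (hg : ∀ i ∈ s, GALL_B (g i)) : GALL_B (fun x => ∑ i ∈ s, g i x) := by
  classical
  induction s using Finset.induction_on with
  | empty => exact ⟨by simp, ⟨0, by simp⟩, by simp⟩
  | insert a s ha ih =>
      have h1 := hg a (Finset.mem_insert_self _ _)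
      have h2 := ih (fun i hi => hg i (Finset.mem_insert_of_mem hi))
      have e : (fun x => ∑ i ∈ insert a s, g i x) = fun x => g a x + ∑ i ∈ s, g i x := by
        funext x
        rw [Finset.sum_insert ha]
      rw [e]
      exact GALL_add h1 h2

theorem GALL_f (s : ℕ) (f : ℝ → ℝ) (hf : PA s f) (hS : Su f) : GALL_B f := by
  choose A B hAB using hf
  have hcell : ∀ x : ℝ, x ∈ cell s (ci s x) := by
    intro x
    have hp : (0 : ℝ) < 2 ^ s := by positivity
    have h1 := Int.floor_le ((2 : ℝ) ^ s * x)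
    have h2 := Int.lt_floor_add_one ((2 : ℝ) ^ s * x)
    constructor
    · rw [div_le_iff₀ hp]; unfold ci; linarith
    · rw [lt_div_iff₀ hp]; unfold ci; linarith
  have hfe : f = fun x => A (ci s x) + B (ci s x) * x := by
    funext x
    exact hAB (ci s x) x (hcell x)
  have hci : Measurable (fun x : ℝ => ci s x) := by
    unfold ci
    exact Int.measurable_floor.comp (measurable_const.mul measurable_id)
  refine ⟨?_, ?_, ?_⟩
  · rw [hfe]
    exact ((measurable_from_top (f := A)).comp hci).add (((measurable_from_top (f := B)).comp hci).mul measurable_id)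
  · refine ⟨∑ k ∈ Finset.range (2 ^ s), (|A k| + |B k|), fun x => ?_⟩
    have hnn : 0 ≤ ∑ k ∈ Finset.range (2 ^ s), (|A k| + |B k|) := Finset.sum_nonneg fun k _ => by positivity
    by_cases hx : x ∈ Set.Icc (1 / 5 : ℝ) (4 / 5)
    · have hx0 : 0 ≤ x := by have := hx.1; linarith
      have hx1 : x < 1 := by have := hx.2; linarith
      have hp : (0 : ℝ) < 2 ^ s := by positivity
      have hk0 : 0 ≤ ci s x := by unfold ci; exact Int.floor_nonneg.2 (by positivity)
      have hk1 : ci s x < 2 ^ s := by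
        unfold ci
        rw [Int.floor_lt]
        push_cast
        nlinarith
      obtain ⟨k, hk⟩ := Int.eq_ofNat_of_zero_le hk0
      have hk2 : k ∈ Finset.range (2 ^ s) := by
        rw [Finset.mem_range]
        rw [hk] at hk1
        exact_mod_cast hk1
      have h1 : |f x| ≤ |A k| + |B k| := by
        rw [hfe]
        simp only [hk]
        calc |A k + B k * x| ≤ |A k| + |B k * x| := abs_add_le _ _
          _ ≤ |A k| + |B k| := by
              rw [abs_mul]
              have : |x| ≤ 1 := by rw [abs_of_nonneg hx0]; exact hx1.le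
              have := mul_le_mul_of_nonneg_left this (abs_nonneg (B k))
              linarith
      exact h1.trans (Finset.single_le_sum (f := fun k : ℕ => |A k| + |B k|) (fun k _ => by positivity) hk2)
    · rw [hS x hx]; simpa using hnn
  · intro x hx
    apply hS
    intro hc
    exact hx ⟨by linarith [hc.1], by linarith [hc.2]⟩

theorem GALL_comp {f : ℝ → ℝ} (hf : GALL_B f) (c : DD) : GALL_B (fun x => f (ev c x)) := by
  obtain ⟨hm, ⟨B, hB⟩, h0⟩ := hf
  refine ⟨hm.comp (ev_contDiff c).continuous.measurable, ⟨B, fun x => hB _⟩, fun x hx => ?_⟩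
  show f (ev c x) = 0
  rw [ev_out c x (fun hc => hx ⟨hc.1.le, hc.2.le⟩)]
  exact h0 x hx

theorem GALL_cov (hSZC : SZC_stmt) {g : ℝ → ℝ} (hg : GALL_B g) (hg0 : ∀ x, 0 ≤ g x) (c : DD) (hc : Sz c (1 / 100)) :
    ∫ x, g (ev c x) ≤ 2 * ∫ x, g x := by
  have hd : ∀ x, |deriv (ev c) x - 1| ≤ 1 / 100 := fun x => (hSZC.2.1 c _ hc x).1
  have hdiff : Differentiable ℝ (ev c) := (ev_contDiff c).differentiable (by norm_num)
  have hcov := integral_image_eq_integral_abs_deriv_smul (s := Set.univ) (f := ev c) (f' := deriv (ev c)) MeasurableSet.univ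
    (fun x _ => (hdiff x).hasDerivAt.hasDerivWithinAt) (ev_strictMono c).injective.injOn g
  have himg : ev c '' Set.univ = Set.univ := by
    ext y
    simp only [Set.image_univ, Set.mem_range, Set.mem_univ, iff_true]
    exact ⟨ev c⁻¹ y, ev_inv' c y⟩
  rw [himg, Measure.restrict_univ] at hcov
  rw [hcov]
  have hgc := GALL_comp hg c
  have hI1 : Integrable (fun x => g (ev c x)) := GALL_int hgc
  have hdc : Continuous (deriv (ev c)) := (ev_contDiff c).continuous_deriv (by norm_num)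
  have hI2 : Integrable (fun x => |deriv (ev c) x| • g (ev c x)) := by
    apply GALL_int
    obtain ⟨hm, ⟨B, hB⟩, h0⟩ := hgc
    refine ⟨(hdc.abs.measurable).mul hm, ⟨2 * B, fun x => ?_⟩, fun x hx => ?_⟩
    swap
    · have := h0 x hx
      simp only at this
      simp [this]
    show |(|deriv (ev c) x| * g (ev c x))| ≤ 2 * B
    rw [abs_mul, abs_abs]
    have h1 : |deriv (ev c) x| ≤ 2 := by
      have := hd x
      rw [abs_le] at this ⊢
      constructor <;> linarith
    exact mul_le_mul h1 (hB x) (abs_nonneg _) (by norm_num)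
  rw [← integral_const_mul]
  refine integral_mono hI1 (hI2.const_mul 2) fun x => ?_
  simp only [smul_eq_mul]
  have h1 : 1 / 2 ≤ |deriv (ev c) x| := by
    have := hd x
    rw [abs_le] at this
    rw [abs_of_nonneg (by linarith)]
    linarith
  have h2 := hg0 (ev c x)
  nlinarith

theorem GALL_card (q m φ : ℕ) (hm : 0 < m) : (fam q m φ).card ≤ q / m + 1 := by
  have h : (fam q m φ).card ≤ (Finset.range (q / m + 1)).card := by
    apply Finset.card_le_card_of_injOn (fun i => i / m)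
    · intro i hi
      simp only [fam, Finset.coe_filter, Finset.mem_range, Set.mem_ofPred_eq] at hi
      simp only [Finset.coe_range, Set.mem_Iio]
      have := Nat.div_le_div_right (c := m) hi.1.le
      omega
    · intro i hi j hj hij
      simp only [fam, Finset.coe_filter, Finset.mem_range, Set.mem_ofPred_eq] at hi hj
      simp only at hij
      have h1 := Nat.div_add_mod i m
      have h2 := Nat.div_add_mod j m
      rw [hi.2, hij] at h1
      rw [hj.2] at h2
      omega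
  rwa [Finset.card_range] at h

theorem GALL (hSZC : SZC_stmt) : GALL_stmt := by
  refine ⟨4, by norm_num, ?_⟩
  intro q w0 c s lam hq hc hlam hfam f hPA hSu hE
  obtain ⟨φ1, hφ1⟩ := hfam
  set m : ℕ := 2 ^ w0 with hm
  have hmpos : 0 < m := by positivity
  have hm4 : 4 ^ w0 = m * m := by
    rw [hm, ← mul_pow]
    norm_num
  have hmq : m ≤ q := le_trans (by nlinarith [hm4]) hq
  have hqpos : 0 < q := lt_of_lt_of_le hmpos hmq
  have hmr : (0 : ℝ) < m := by exact_mod_cast hmpos
  have hqr : (0 : ℝ) < q := by exact_mod_cast hqpos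
  -- choose the exceptional family below `m`
  obtain ⟨φ0, hφ0m, hφ0⟩ : ∃ φ0 ∈ Finset.range m, ∀ φ < m, φ ≠ φ0 → FG q m φ c s lam := by
    by_cases h : φ1 < m
    · exact ⟨φ1, Finset.mem_range.2 h, hφ1⟩
    · exact ⟨0, Finset.mem_range.2 hmpos, fun φ h1 _ => hφ1 φ h1 (by omega)⟩
  have hfB : GALL_B f := GALL_f (s + 1) f hPA hSu
  have hci : ∀ i, GALL_B (fun x => f (ev (c i) x)) := fun i => GALL_comp hfB (c i)
  have hsq : ∀ {g : ℝ → ℝ}, GALL_B g → GALL_B (fun x => g x ^ 2) := by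
    intro g hg
    have := GALL_mul hg hg
    simpa only [pow_two] using this
  have hnf : 0 ≤ nsq f := integral_nonneg fun x => sq_nonneg _
  -- the weights
  let a : ℕ → ℝ := fun φ => (fam q m φ).card / q
  have ha0 : ∀ φ, 0 ≤ a φ := fun φ => by positivity
  have hsum1 : ∑ φ ∈ Finset.range m, a φ = 1 := by
    have h1 : (Finset.range q).card = ∑ φ ∈ Finset.range m, (fam q m φ).card :=
      Finset.card_eq_sum_card_fiberwise (f := fun i => i % m) (t := Finset.range m) (fun i _ => by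
        simp only [Finset.coe_range, Set.mem_Iio]
        exact Nat.mod_lt _ hmpos)
    simp only [a]
    rw [← Finset.sum_div, ← Nat.cast_sum, ← h1, Finset.card_range, div_self hqr.ne']
  have hTB : ∀ φ, GALL_B (fun x => Tf q m φ c f x) := by
    intro φ
    have h1 := GALL_cm (((fam q m φ).card : ℝ)⁻¹) (GALL_sum (fam q m φ) (fun i x => f (ev (c i) x)) (fun i _ => hci i))
    have e : (fun x => Tf q m φ c f x) = fun x => ((fam q m φ).card : ℝ)⁻¹ * ∑ i ∈ fam q m φ, f (ev (c i) x) := by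
      funext x
      unfold Tf
      rw [div_eq_inv_mul]
    rw [e]
    exact h1
  have hTe : ∀ φ x, a φ * Tf q m φ c f x = (∑ i ∈ fam q m φ, f (ev (c i) x)) / q := by
    intro φ x
    simp only [a]
    unfold Tf
    rcases Finset.eq_empty_or_nonempty (fam q m φ) with h | h
    · rw [h]; simp
    · have : (0 : ℝ) < (fam q m φ).card := by exact_mod_cast Finset.card_pos.2 h
      field_simp
  have hMop : ∀ x, Mop q c f x = ∑ φ ∈ Finset.range m, a φ * Tf q m φ c f x := by
    intro x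
    unfold Mop
    simp only [hTe]
    rw [← Finset.sum_div]
    congr 1
    exact (Finset.sum_fiberwise_of_maps_to (s := Finset.range q) (t := Finset.range m) (g := fun i => i % m)
      (fun i _ => Finset.mem_range.2 (Nat.mod_lt _ hmpos)) (fun i => f (ev (c i) x))).symm
  -- pointwise bound
  set n : ℝ := ((fam q m φ0).card : ℝ) with hn
  have hn0 : 0 ≤ n := Nat.cast_nonneg _
  have hpt : ∀ x, Mop q c f x ^ 2 ≤ 2 * (n / q ^ 2 * ∑ i ∈ fam q m φ0, f (ev (c i) x) ^ 2) +
      2 * ∑ φ ∈ (Finset.range m).erase φ0, a φ * Tf q m φ c f x ^ 2 := by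
    intro x
    rw [hMop, ← Finset.add_sum_erase _ _ hφ0m]
    set U := a φ0 * Tf q m φ0 c f x with hU
    set V := ∑ φ ∈ (Finset.range m).erase φ0, a φ * Tf q m φ c f x with hV
    have h1 : (U + V) ^ 2 ≤ 2 * U ^ 2 + 2 * V ^ 2 := by nlinarith [sq_nonneg (U - V)]
    have h2 : U ^ 2 ≤ n / q ^ 2 * ∑ i ∈ fam q m φ0, f (ev (c i) x) ^ 2 := by
      rw [hU, hTe, div_pow]
      have := sq_sum_le_card_mul_sum_sq (s := fam q m φ0) (f := fun i => f (ev (c i) x))
      calc (∑ i ∈ fam q m φ0, f (ev (c i) x)) ^ 2 / q ^ 2 ≤ (n * ∑ i ∈ fam q m φ0, f (ev (c i) x) ^ 2) / q ^ 2 := by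
            gcongr
        _ = _ := by ring
    have h3 : V ^ 2 ≤ ∑ φ ∈ (Finset.range m).erase φ0, a φ * Tf q m φ c f x ^ 2 := by
      have h4 := Finset.sum_mul_sq_le_sq_mul_sq ((Finset.range m).erase φ0) (fun φ => √(a φ)) (fun φ => √(a φ) * Tf q m φ c f x)
      have e1 : ∑ φ ∈ (Finset.range m).erase φ0, √(a φ) * (√(a φ) * Tf q m φ c f x) = V := by
        rw [hV]
        apply Finset.sum_congr rfl
        intro φ _
        rw [← mul_assoc, Real.mul_self_sqrt (ha0 φ)]
      have e2 : ∑ φ ∈ (Finset.range m).erase φ0, √(a φ) ^ 2 ≤ 1 := by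
        rw [← hsum1, ← Finset.add_sum_erase _ _ hφ0m]
        have : ∑ φ ∈ (Finset.range m).erase φ0, √(a φ) ^ 2 = ∑ φ ∈ (Finset.range m).erase φ0, a φ :=
          Finset.sum_congr rfl fun φ _ => Real.sq_sqrt (ha0 φ)
        rw [this]
        linarith [ha0 φ0]
      have e3 : ∑ φ ∈ (Finset.range m).erase φ0, (√(a φ) * Tf q m φ c f x) ^ 2 = ∑ φ ∈ (Finset.range m).erase φ0, a φ * Tf q m φ c f x ^ 2 := by
        apply Finset.sum_congr rfl
        intro φ _
        rw [mul_pow, Real.sq_sqrt (ha0 φ)]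
      rw [e1, e3] at h4
      have h5 : 0 ≤ ∑ φ ∈ (Finset.range m).erase φ0, a φ * Tf q m φ c f x ^ 2 :=
        Finset.sum_nonneg fun φ _ => mul_nonneg (ha0 φ) (sq_nonneg _)
      calc V ^ 2 ≤ (∑ φ ∈ (Finset.range m).erase φ0, √(a φ) ^ 2) * ∑ φ ∈ (Finset.range m).erase φ0, a φ * Tf q m φ c f x ^ 2 := h4
        _ ≤ 1 * ∑ φ ∈ (Finset.range m).erase φ0, a φ * Tf q m φ c f x ^ 2 := mul_le_mul_of_nonneg_right e2 h5
        _ = _ := one_mul _
    linarith
  -- integrate
  have hMB : GALL_B (fun x => Mop q c f x) := by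
    have e : (fun x => Mop q c f x) = fun x => ∑ φ ∈ Finset.range m, a φ * Tf q m φ c f x := by
      funext x; exact hMop x
    rw [e]
    exact GALL_sum _ _ (fun φ _ => GALL_cm _ (hTB φ))
  have hA : GALL_B (fun x => ∑ i ∈ fam q m φ0, f (ev (c i) x) ^ 2) :=
    GALL_sum _ (fun i x => f (ev (c i) x) ^ 2) (fun i _ => hsq (hci i))
  have hBt : ∀ φ, GALL_B (fun x => a φ * Tf q m φ c f x ^ 2) := fun φ => GALL_cm _ (hsq (hTB φ))
  have hBs : GALL_B (fun x => ∑ φ ∈ (Finset.range m).erase φ0, a φ * Tf q m φ c f x ^ 2) :=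
    GALL_sum _ (fun φ x => a φ * Tf q m φ c f x ^ 2) (fun φ _ => hBt φ)
  have hint : nsq (Mop q c f) ≤ 2 * (n / q ^ 2 * ∫ x, ∑ i ∈ fam q m φ0, f (ev (c i) x) ^ 2) +
      2 * ∫ x, ∑ φ ∈ (Finset.range m).erase φ0, a φ * Tf q m φ c f x ^ 2 := by
    unfold nsq
    refine (integral_mono (GALL_int (hsq hMB)) (((GALL_int hA).const_mul _).const_mul _ |>.add ((GALL_int hBs).const_mul _)) hpt).trans (le_of_eq ?_)
    have e := integral_add (μ := volume) (f := fun x => 2 * (n / q ^ 2 * ∑ i ∈ fam q m φ0, f (ev (c i) x) ^ 2))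
      (g := fun x => 2 * ∑ φ ∈ (Finset.range m).erase φ0, a φ * Tf q m φ c f x ^ 2)
      (((GALL_int hA).const_mul _).const_mul _) ((GALL_int hBs).const_mul _)
    refine Eq.trans e ?_
    rw [integral_const_mul, integral_const_mul, integral_const_mul]
  have hI1 : ∫ x, ∑ i ∈ fam q m φ0, f (ev (c i) x) ^ 2 ≤ n * (2 * nsq f) := by
    rw [integral_finsetSum _ (fun i _ => GALL_int (hsq (hci i)))]
    calc ∑ i ∈ fam q m φ0, ∫ x, f (ev (c i) x) ^ 2 ≤ ∑ i ∈ fam q m φ0, 2 * nsq f := by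
          apply Finset.sum_le_sum
          intro i hi
          have hiq : i < q := by
            simp only [fam, Finset.mem_filter, Finset.mem_range] at hi
            exact hi.1
          exact GALL_cov hSZC (g := fun x => f x ^ 2) (hsq hfB) (fun x => sq_nonneg _) (c i) (hc i hiq)
      _ = n * (2 * nsq f) := by rw [Finset.sum_const, nsmul_eq_mul]
  have hI2 : ∫ x, ∑ φ ∈ (Finset.range m).erase φ0, a φ * Tf q m φ c f x ^ 2 ≤ lam ^ 2 * nsq f := by
    rw [integral_finsetSum _ (fun φ _ => GALL_int (hBt φ))]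
    have h1 : ∀ φ ∈ (Finset.range m).erase φ0, ∫ x, a φ * Tf q m φ c f x ^ 2 ≤ a φ * (lam ^ 2 * nsq f) := by
      intro φ hφ
      rw [integral_const_mul]
      apply mul_le_mul_of_nonneg_left _ (ha0 φ)
      rw [Finset.mem_erase, Finset.mem_range] at hφ
      exact hφ0 φ hφ.2 hφ.1 f hPA hSu hE
    refine (Finset.sum_le_sum h1).trans ?_
    rw [← Finset.sum_mul]
    have e2 : ∑ φ ∈ (Finset.range m).erase φ0, a φ ≤ 1 := by
      rw [← hsum1, ← Finset.add_sum_erase _ _ hφ0m]
      linarith [ha0 φ0]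
    calc (∑ φ ∈ (Finset.range m).erase φ0, a φ) * (lam ^ 2 * nsq f) ≤ 1 * (lam ^ 2 * nsq f) :=
          mul_le_mul_of_nonneg_right e2 (by positivity)
      _ = _ := one_mul _
  have hnq : n / q ≤ 2 / m := by
    have h1 : n ≤ (q : ℝ) / m + 1 := by
      have h2 := GALL_card q m φ0 hmpos
      have h3 : ((q / m + 1 : ℕ) : ℝ) ≤ (q : ℝ) / m + 1 := by
        push_cast
        have := @Nat.cast_div_le ℝ _ _ _ q m
        linarith
      exact le_trans (Nat.cast_le.2 h2) h3
    have h4 : (1 : ℝ) ≤ q / m := by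
      rw [le_div_iff₀ hmr, one_mul]; exact_mod_cast hmq
    rw [div_le_iff₀ hqr]
    calc n ≤ 2 * ((q : ℝ) / m) := by linarith
      _ = 2 / m * q := by ring
  have hnq2 : (n / q) ^ 2 ≤ (2 / m) ^ 2 := pow_le_pow_left₀ (by positivity) hnq 2
  have hmcast : ((2 : ℝ) ^ w0) = m := by rw [hm]; push_cast; rfl
  rw [hmcast]
  calc nsq (Mop q c f) ≤ 2 * (n / q ^ 2 * ∫ x, ∑ i ∈ fam q m φ0, f (ev (c i) x) ^ 2) +
      2 * ∫ x, ∑ φ ∈ (Finset.range m).erase φ0, a φ * Tf q m φ c f x ^ 2 := hint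
    _ ≤ 2 * (n / q ^ 2 * (n * (2 * nsq f))) + 2 * (lam ^ 2 * nsq f) := by gcongr
    _ = (4 * (n / q) ^ 2 + 2 * lam ^ 2) * nsq f := by ring
    _ ≤ (4 * (2 / m) ^ 2 + 2 * lam ^ 2) * nsq f := by gcongr
    _ ≤ (4 * (lam + 1 / m)) ^ 2 * nsq f := by
        apply mul_le_mul_of_nonneg_right _ hnf
        have e1 : (2 / (m : ℝ)) ^ 2 = 4 * (1 / m) ^ 2 := by ring
        rw [e1]
        have : (0 : ℝ) ≤ 1 / m := by positivity
        nlinarith [mul_nonneg hlam this, sq_nonneg lam, sq_nonneg (1 / (m : ℝ))]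

end Pool.Agent.helper90.DH
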