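import Pool.Agent.helper78.ED.Fin
import Pool.Agent.helper1.DH.ALG
import Pool.Agent.helper1.DH.CLB
import Pool.Agent.helper1.DH.FIN
import Pool.Agent.helper1.DH.RSQ
import Pool.Agent.helper13.DH.EXPN
import Pool.Agent.helper13.DH.QID
import Pool.Agent.helper13.DH.RID
import Pool.Agent.helper24.DH.MONO
import Pool.Agent.helper26.DH.SHV
import Pool.Agent.helper26.DH.TAY
import Pool.Agent.helper28.DH.QTR
import Pool.Agent.helper29.DH.HMA
import Pool.Agent.helper41.DH.DUA
import Pool.Agent.helper50.DH.PSM
import Pool.Agent.helper53.DH.ABS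
import Pool.Agent.helper53.DH.DTS
import Pool.Agent.helper58.DH.DKS
import Pool.Agent.helper59.DH.GRP
import Pool.Agent.helper63.DH.NEAR
import Pool.Agent.helper67.DH.LVA
import Pool.Agent.helper70.DH.COR
import Pool.Agent.helper89.DH.ONE
import Pool.Agent.helper90.DH.CPW
import Pool.Agent.helper95.DH.QLO
import Pool.Agent.helper97.DH.CLA

/-! # Project dh: assembly -/

set_option autoImplicit false

open Complex MeasureTheory

namespace Pool.Agent.DH

open Pool.Agent.helper84.DM Pool.Agent.helper78.ED

theorem refl : REFL_stmt :=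
  fun k hk => SS_refl_of k hk (X_line k) (X_strip k) (zeta_strip k)

theorem det : DET_stmt := detect

theorem two : TWO_stmt := class_two_of local_count

theorem expn : EXPN_stmt := EXPN RID

theorem qid : QID_stmt := QID expn

theorem qlo : QLO_stmt := QLO expn qid

theorem dks : DKS_stmt := DKS (SHV RID) MONO

theorem rsq : RSQ_stmt := RSQ refl dks DTS QTR

theorem one : ONE_stmt := ONE (HMA qlo) GRP (DUA RID)

theorem lva : LVA_stmt := LVA one rsq NEAR qid

theorem psm : PSM_stmt := PSM rsq NEAR

theorem clb : CLB_stmt := CLB (CLA (ABS lva) psm CPW ALG) TAY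

theorem cor : COR_stmt := COR clb det two

/-- The density hypothesis to the right of `3/4`. -/
theorem fin : FIN_stmt := FIN cor

end Pool.Agent.DH
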