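import Pool.Agent.helper78.ED.Defs2

/-!
# Project dh (MP_4467b5_nt): the density hypothesis to the right of 3/4. Definitions

`wg M n = exp (-(log (n/M))^2/4)`, `SS M z τ = ∑' n, wg M n * n^(-(z + iτ))`,
`DK K u = ‖∑ n ∈ Icc 1 K, n^(-(1/2 + iu))‖`, `Dt K V t = ∫ v in (-V)..V, DK K (t+v) * exp (-v^2)`,
`Zer σ T Z`, `loc Z t` are in `Pool.Agent.helper78.ED`, `d n` (number of divisors) is in
`Pool.Agent.helper84.DM`.
-/

set_option autoImplicit false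

open Complex MeasureTheory

namespace Pool.Agent.DH

open Pool.Agent.helper84.DM Pool.Agent.helper78.ED

/-- The sum `∑ c(ρ) (x/y)^(-iγ)` over `ρ = β + iγ` in `Z`. -/
noncomputable def RR (Z : Finset ℂ) (c : ℂ → ℂ) (x y : ℕ) : ℂ :=
  ∑ ρ ∈ Z, c ρ * ((x : ℂ) ^ (-((ρ.im : ℂ) * I)) * (y : ℂ) ^ ((ρ.im : ℂ) * I))

/-- The block of the integers `L < l ≤ 8 L`. -/
def IL (L : ℕ) : Finset ℕ := Finset.Ioc L (8 * L)

/-- The sum `∑ l^(-iu)` over the finite set `S`. -/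
noncomputable def PL (S : Finset ℕ) (u : ℝ) : ℂ := ∑ l ∈ S, (l : ℂ) ^ (-((u : ℂ) * I))

/-- The double sum `∑ |R(x/y)|^2` over `x, y` in the block of `L`, where `R(x) = ∑ x^(-iγ)`. -/
noncomputable def QQ (Z : Finset ℂ) (L : ℕ) : ℝ :=
  ∑ x ∈ IL L, ∑ y ∈ IL L, ‖RR Z (fun _ => 1) x y‖ ^ 2

/-- The Dirichlet polynomial `∑ a(n) n^(-iu)`, `N < n ≤ 2N`. -/
noncomputable def DP (N : ℕ) (a : ℕ → ℂ) (u : ℝ) : ℂ :=
  ∑ n ∈ Finset.Ioc N (2 * N), a n * (n : ℂ) ^ (-((u : ℂ) * I))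

end Pool.Agent.DH
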