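import Pool.Agent.helper18.DH.SpecM

set_option autoImplicit false

open Filter Topology MeasureTheory
open scoped commutatorElement

namespace Pool.Agent.helper90.DH

open Pool.Agent.helper64.D2

theorem MRS (hCOC : COC_stmt) (hSZR : SZR_stmt) (hQPR : QPR_stmt) (hNSZ : NSZ_stmt) (hNCA : NCA_stmt) (hSZC : SZC_stmt) : MRS_stmt := by
  obtain ⟨K0, hK0, hS⟩ := hSZR
  obtain ⟨_, hszd, hszm, hszi, _⟩ := hSZC
  obtain ⟨_, _, _, _, _, hd2N, _⟩ := hNCA
  obtain ⟨hN1, _⟩ := hNSZ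
  refine ⟨1000 * K0 ^ 2, by nlinarith, ?_⟩
  intro q Y G Q R ε d L γ hq hF hε hγ hK hG hQ hR x
  have hqr : (1 : ℝ) ≤ q := by exact_mod_cast hq
  have hqpos : (0 : ℝ) < q := by linarith
  set s : ℝ := ε + q * γ with hs
  have hs0 : 0 ≤ s := by positivity
  have hεs : ε ≤ s := by rw [hs]; have : 0 ≤ q * γ := by positivity
                         linarith
  have hqγs : q * γ ≤ s := by rw [hs]; linarith
  have hγq : γ ≤ q * γ := le_mul_of_one_le_left hγ hqr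
  have hK0s : K0 * s ≤ K0 ^ 2 * s := by
    apply mul_le_mul_of_nonneg_right _ hs0
    nlinarith
  have hK2 : K0 ^ 2 * s ≤ 1 / 1000 := by
    have : 1000 * K0 ^ 2 * s = 1000 * (K0 ^ 2 * s) := by ring
    rw [this] at hK
    linarith
  have hs1 : s ≤ K0 * s := le_mul_of_one_le_left hs0 hK0
  set a : ℝ := K0 * s with ha
  have ha0 : 0 ≤ a := by positivity
  have ha1 : a ≤ 1 / 1000 := by linarith
  have hε1 : ε ≤ 1 / 1000 := by linarith
  have hγ1 : γ ≤ 1 / 1000 := by linarith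
  obtain ⟨h1, h2⟩ := hS q Y G Q R ε d L γ hq hF hε hγ (by linarith) hG hQ hR
  obtain ⟨_, _, h3⟩ := hQPR q Y Q ε d L hq hF hε (by linarith) hQ
  have hC := hCOC q G Q R hR 0 (Nat.zero_le _) x
  rw [← Finset.range_eq_Ico] at hC
  -- each term
  have hterm : ∀ k ∈ Finset.range q,
      |((Nn (Q k) (ev (Cm G Q R k) x) - Nn (Q (k + 1)) (ev (Cm G Q R k) x)) * deriv (ev (Cm G Q R k)) x +
        (Nn (G k)⁻¹ (ev (Fm Q k) (ev (Em G R k) x)) * deriv (ev (Fm Q k)) (ev (Em G R k) x) - Nn (G k)⁻¹ (ev (Em G R k) x)) * deriv (ev (Em G R k)) x) -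
        d2 (Y k) (ev (Cm G Q R k) x)| ≤ (5 * ε ^ 2 + ε * a) / q + 7 * γ := by
    intro k hk
    have hkq : k < q := Finset.mem_range.1 hk
    obtain ⟨_, h5, h6⟩ := h2 k hkq
    obtain ⟨_, _, _, h7, _⟩ := h3 k hkq (ev (Cm G Q R k) x)
    obtain ⟨_, _, hY⟩ := hF k hkq
    obtain ⟨h8, _⟩ := hY (ev (Cm G Q R k) x)
    obtain ⟨h9, _⟩ := hszd (Cm G Q R k) a h6 x
    obtain ⟨h10, _⟩ := hszd (Em G R k) a h5 x
    have hGi : Sz (G k)⁻¹ (2 * γ) := hszi (G k) γ (hG k hkq) (by linarith)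
    have h11 : ∀ y, |Nn (G k)⁻¹ y| ≤ 3 * γ := by
      intro y
      have := hN1 (G k)⁻¹ (2 * γ) hGi (by linarith) y
      have g0 : 2 * γ * (1 + 2 * (2 * γ)) ≤ 2 * γ * (3 / 2) := mul_le_mul_of_nonneg_left (by linarith) (by linarith)
      linarith
    have hQi : Sz (Q (k + 1))⁻¹ (2 * ε) := hszi _ _ (h1 (k + 1) (by omega)).1 (by linarith)
    have hFs : Sz (Fm Q k) (ε + 2 * ε + 4 * ε * (2 * ε)) :=
      hszm (Q k) (Q (k + 1))⁻¹ ε (2 * ε) (h1 k hkq.le).1 hQi (by linarith) (by linarith)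
    obtain ⟨h12, _⟩ := hszd (Fm Q k) _ hFs (ev (Em G R k) x)
    set z := ev (Cm G Q R k) x with hz
    set y := ev (Em G R k) x with hy
    set A := Nn (Q k) z - Nn (Q (k + 1)) z with hA
    set C' := deriv (ev (Cm G Q R k)) x with hC'
    set E' := deriv (ev (Em G R k)) x with hE'
    set F' := deriv (ev (Fm Q k)) y with hF'
    set N1 := Nn (G k)⁻¹ (ev (Fm Q k) y) with hN1'
    set N2 := Nn (G k)⁻¹ y with hN2'
    set D := d2 (Y k) z with hD
    have b1 := h11 (ev (Fm Q k) y)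
    have b2 := h11 y
    rw [← hN1'] at b1
    rw [← hN2'] at b2
    have e : (A * C' + (N1 * F' - N2) * E') - D = (A - D) * C' + D * (C' - 1) + (N1 * F' - N2) * E' := by ring
    rw [e]
    have hCa : |C'| ≤ 11 / 10 := by
      have : |C'| ≤ |C' - 1| + 1 := by
        calc |C'| = |(C' - 1) + 1| := by congr 1; ring
          _ ≤ |C' - 1| + |1| := abs_add_le _ _
          _ = _ := by norm_num
      linarith
    have hEa : |E'| ≤ 11 / 10 := by
      have : |E'| ≤ |E' - 1| + 1 := by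
        calc |E'| = |(E' - 1) + 1| := by congr 1; ring
          _ ≤ |E' - 1| + |1| := abs_add_le _ _
          _ = _ := by norm_num
      linarith
    have hFa : |F'| ≤ 11 / 10 := by
      have h13 : |F'| ≤ |F' - 1| + 1 := by
        calc |F'| = |(F' - 1) + 1| := by congr 1; ring
          _ ≤ |F' - 1| + |1| := abs_add_le _ _
          _ = _ := by norm_num
      have h14 : 4 * ε * (2 * ε) ≤ 4 * ε * 1 := mul_le_mul_of_nonneg_left (by linarith) (by linarith)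
      have : ε + 2 * ε + 4 * ε * (2 * ε) ≤ 1 / 10 := by linarith
      linarith
    have t1 : |(A - D) * C'| ≤ 4 * ε ^ 2 / q * (11 / 10) := by
      rw [abs_mul]
      exact mul_le_mul h7 hCa (abs_nonneg _) (by positivity)
    have t2 : |D * (C' - 1)| ≤ ε / q * a := by
      rw [abs_mul]
      exact mul_le_mul h8 h9 (abs_nonneg _) (by positivity)
    have t3 : |(N1 * F' - N2) * E'| ≤ 7 * γ := by
      have u1 : |N1 * F'| ≤ 3 * γ * (11 / 10) := by
        rw [abs_mul]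
        exact mul_le_mul b1 hFa (abs_nonneg _) (by positivity)
      have u2 : |N1 * F' - N2| ≤ 3 * γ * (11 / 10) + 3 * γ := by
        calc |N1 * F' - N2| ≤ |N1 * F'| + |N2| := abs_sub _ _
          _ ≤ _ := add_le_add u1 b2
      rw [abs_mul]
      calc |N1 * F' - N2| * |E'| ≤ (3 * γ * (11 / 10) + 3 * γ) * (11 / 10) :=
            mul_le_mul u2 hEa (abs_nonneg _) (by positivity)
        _ ≤ 7 * γ := by linarith
    calc |(A - D) * C' + D * (C' - 1) + (N1 * F' - N2) * E'| ≤ |(A - D) * C' + D * (C' - 1)| + |(N1 * F' - N2) * E'| := abs_add_le _ _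
      _ ≤ |(A - D) * C'| + |D * (C' - 1)| + |(N1 * F' - N2) * E'| := by
          have := abs_add_le ((A - D) * C') (D * (C' - 1))
          linarith
      _ ≤ 4 * ε ^ 2 / q * (11 / 10) + ε / q * a + 7 * γ := by linarith
      _ ≤ (5 * ε ^ 2 + ε * a) / q + 7 * γ := by
          have : 0 ≤ ε ^ 2 / q := by positivity
          have e2 : (5 * ε ^ 2 + ε * a) / q = 5 * (ε ^ 2 / q) + ε / q * a := by ring
          have e3 : 4 * ε ^ 2 / q * (11 / 10) = 44 / 10 * (ε ^ 2 / q) := by ring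
          rw [e2, e3]
          linarith
  have hsum : |Nn (R 0) x - ∑ i ∈ Finset.range q, d2 (Y i) (ev (Cm G Q R i) x)| ≤ 5 * ε ^ 2 + ε * a + 7 * (q * γ) := by
    rw [hC, ← Finset.sum_sub_distrib]
    refine (Finset.abs_sum_le_sum_abs _ _).trans ?_
    refine (Finset.sum_le_sum hterm).trans ?_
    rw [Finset.sum_const, Finset.card_range, nsmul_eq_mul]
    apply le_of_eq
    field_simp
  have hR0 : |d2 (ev (R 0)) x - Nn (R 0) x| ≤ 2 * a ^ 2 := by
    have hSR := (h1 0 (Nat.zero_le _)).2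
    have g1 := hN1 (R 0) a hSR (by linarith) x
    obtain ⟨g2, _⟩ := hszd (R 0) a hSR x
    rw [hd2N]
    have e : Nn (R 0) x * deriv (ev (R 0)) x - Nn (R 0) x = Nn (R 0) x * (deriv (ev (R 0)) x - 1) := by ring
    rw [e, abs_mul]
    calc |Nn (R 0) x| * |deriv (ev (R 0)) x - 1| ≤ (a * (1 + 2 * a)) * a := mul_le_mul g1 g2 (abs_nonneg _) (by positivity)
      _ = a ^ 2 * (1 + 2 * a) := by ring
      _ ≤ a ^ 2 * 2 := mul_le_mul_of_nonneg_left (by linarith) (sq_nonneg a)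
      _ = 2 * a ^ 2 := by ring
  have hfin : |d2 (ev (R 0)) x - ∑ i ∈ Finset.range q, d2 (Y i) (ev (Cm G Q R i) x)| ≤ 2 * a ^ 2 + (5 * ε ^ 2 + ε * a + 7 * (q * γ)) := by
    calc |d2 (ev (R 0)) x - ∑ i ∈ Finset.range q, d2 (Y i) (ev (Cm G Q R i) x)|
        = |(d2 (ev (R 0)) x - Nn (R 0) x) + (Nn (R 0) x - ∑ i ∈ Finset.range q, d2 (Y i) (ev (Cm G Q R i) x))| := by congr 1; ring
      _ ≤ _ := (abs_add_le _ _).trans (add_le_add hR0 hsum)
  refine hfin.trans ?_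
  have c1 : a ^ 2 = K0 ^ 2 * s ^ 2 := by rw [ha]; ring
  have c2 : ε ^ 2 ≤ s ^ 2 := pow_le_pow_left₀ hε hεs 2
  have c3 : ε * a ≤ K0 ^ 2 * s ^ 2 := by
    calc ε * a ≤ s * (K0 * s) := by rw [ha]; exact mul_le_mul_of_nonneg_right hεs (by positivity)
      _ ≤ s * (K0 ^ 2 * s) := mul_le_mul_of_nonneg_left hK0s hs0
      _ = K0 ^ 2 * s ^ 2 := by ring
  have hK01 : 1 ≤ K0 ^ 2 := one_le_pow₀ hK0
  have c4 : s ^ 2 ≤ K0 ^ 2 * s ^ 2 := le_mul_of_one_le_left (sq_nonneg s) hK01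
  have c5 : q * γ ≤ K0 ^ 2 * (q * γ) := le_mul_of_one_le_left (by positivity) hK01
  have c6 : 0 ≤ K0 ^ 2 * s ^ 2 := by positivity
  have c7 : 0 ≤ K0 ^ 2 * (q * γ) := by positivity
  rw [c1]
  have c8 : 1000 * K0 ^ 2 * (s ^ 2 + q * γ) = 1000 * (K0 ^ 2 * s ^ 2) + 1000 * (K0 ^ 2 * (q * γ)) := by ring
  rw [c8]
  linarith

end Pool.Agent.helper90.DH
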