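import Pool.Agent.helper15.DH.Defs

/-!
# Project dh (MP_4467b5_nt): the density hypothesis for all `σ > 3/4`. Module statements.

Module `XX` proves `theorem XX (h1 : AA_stmt) (h2 : BB_stmt) … : XX_stmt` in the file
`Pool/Agent/<seat>/DH/XX.lean`, namespace `Pool.Agent.DH`, `import Pool.Agent.helper15.DH.Spec` plus
the library files named in the docstring. Any statement of this file may be a hypothesis (no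
circles). Auxiliary lemmas are prefixed `XX_`. No `sorry`, no double quotes.

Library (project ED, namespace `Pool.Agent.helper78.ED`; `open Pool.Agent.helper78.ED
Pool.Agent.helper84.DM`): `Pool.Agent.helper78.ED.LV` (`large_values_of`, `LV_unim`, `LV_cpow`,
`LV_wg_nonneg`), `Pool.Agent.helper93.ED.WG` (`wg_nonneg`, `wg_sum`, `wg_lower`, `SS_triv`),
`Pool.Agent.helper63.ED.LC` (`local_count`, `global_count`, `mult_le`),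
`Pool.Agent.helper63.ED.PW` (`pow_poly`), `Pool.Agent.helper78.ED.CO` (`CO_log`, `CO_G`),
`Pool.Agent.helper97.ED.PS` (`PS_near`, `PS_log`), `Pool.Agent.helper71.ED.C2` (`C2_cs`,
`C2_gauss`, `class_two_of`), `Pool.Agent.helper59.DM.DV` (`divisor_bound`).
-/

set_option autoImplicit false

open Complex MeasureTheory

namespace Pool.Agent.DH

open Pool.Agent.helper84.DM Pool.Agent.helper78.ED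

/-! ## Part 1: finite identities -/

/-- **RID** (short). uses: nothing. The square of `RR`, multiplied out.
Proof. `‖z‖² = z * conj z`; `conj (x^(-iγ)) = x^(iγ)` for a natural number `x ≥ 1` (see `LV_cpow`),
`x^(-iγ) x^(iγ') = x^(-i(γ-γ'))`. -/
def RID_stmt : Prop := ∀ (Z : Finset ℂ) (c : ℂ → ℂ) (x y : ℕ), 1 ≤ x → 1 ≤ y →
  ((‖RR Z c x y‖ ^ 2 : ℝ) : ℂ) = ∑ ρ ∈ Z, ∑ ρ' ∈ Z, c ρ * (starRingEnd ℂ) (c ρ') *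
    ((x : ℂ) ^ (-(((ρ.im - ρ'.im : ℝ) : ℂ) * I)) *
      (starRingEnd ℂ) ((y : ℂ) ^ (-(((ρ.im - ρ'.im : ℝ) : ℂ) * I))))

/-- **EXPN** (short). uses: RID_stmt. Sum RID over `x, y` with weights and exchange the sums. -/
def EXPN_stmt : Prop := ∀ (Z : Finset ℂ) (c : ℂ → ℂ) (A B : Finset ℕ) (w v : ℕ → ℝ),
  0 ∉ A → 0 ∉ B →
  ((∑ x ∈ A, ∑ y ∈ B, w x * v y * ‖RR Z c x y‖ ^ 2 : ℝ) : ℂ) =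
    ∑ ρ ∈ Z, ∑ ρ' ∈ Z, c ρ * (starRingEnd ℂ) (c ρ') *
      ((∑ x ∈ A, (w x : ℂ) * (x : ℂ) ^ (-(((ρ.im - ρ'.im : ℝ) : ℂ) * I))) *
       (starRingEnd ℂ) (∑ y ∈ B, (v y : ℂ) * (y : ℂ) ^ (-(((ρ.im - ρ'.im : ℝ) : ℂ) * I))))

/-- **QID** (short). uses: EXPN_stmt. With `c = 1`, `w = v = 1`, `A = B = IL L`:
`z * conj z = ‖z‖²`. (`0 ∉ IL L`.) -/
def QID_stmt : Prop := ∀ (Z : Finset ℂ) (L : ℕ),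
  QQ Z L = ∑ ρ ∈ Z, ∑ ρ' ∈ Z, ‖PL (IL L) (ρ.im - ρ'.im)‖ ^ 2

/-- **QLO** (short). uses: EXPN_stmt, QID_stmt.
Proof. By EXPN with `c ρ = f ρ` real, the right side is
`∑ ρ ρ', f ρ * f ρ' * ‖PL (IL L) (γ - γ')‖²` and all terms are at least
`V² ‖PL (IL L) (γ - γ')‖²`. -/
def QLO_stmt : Prop := ∀ (Z : Finset ℂ) (f : ℂ → ℝ) (V : ℝ) (L : ℕ), 0 ≤ V → (∀ ρ ∈ Z, V ≤ f ρ) →
  V ^ 2 * QQ Z L ≤ ∑ x ∈ IL L, ∑ y ∈ IL L, ‖RR Z (fun ρ => ((f ρ : ℝ) : ℂ)) x y‖ ^ 2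

/-- **QTR** (short). uses: nothing.
Proof. The terms `x = y` : `RR Z 1 x x = Z.card` since `x^(-iγ) x^(iγ) = 1`, and there are `7 L ≥ L`
of them; all terms are `≥ 0`. -/
def QTR_stmt : Prop := ∀ (Z : Finset ℂ) (L : ℕ), (L : ℝ) * (Z.card : ℝ) ^ 2 ≤ QQ Z L

/-- **SHV** (short/medium). uses: RID_stmt. A shift `v` does no harm.
Proof. `‖∑ n, w n n^(-i(τ+v))‖² = ∑ n m, w n w m (n^(-iv) conj (m^(-iv))) (n^(-iτ) conj (m^(-iτ)))`.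
Sum over `ρ, ρ'` with `τ = γ - γ'` and exchange: by RID (`c = 1`) the left side is, as a complex
number, `∑ n m, w n w m (n^(-iv) conj (m^(-iv))) ‖RR Z 1 n m‖²`; the unimodular factors have
norm 1. -/
def SHV_stmt : Prop := ∀ (Z : Finset ℂ) (B : Finset ℕ) (w : ℕ → ℝ) (v : ℝ), 0 ∉ B →
  (∀ n, 0 ≤ w n) →
  ∑ ρ ∈ Z, ∑ ρ' ∈ Z, ‖∑ n ∈ B, (w n : ℂ) * (n : ℂ) ^ (-(((ρ.im - ρ'.im + v : ℝ) : ℂ) * I))‖ ^ 2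
    ≤ ∑ n ∈ B, ∑ m ∈ B, w n * w m * ‖RR Z (fun _ => 1) n m‖ ^ 2

/-- **MONO** (medium). uses: nothing. Monotonicity of the double sums.
Proof. `q = L / Y` (natural division), `q ≥ 1`, `Y * q ≤ L < Y * (q + 1)`. For `n, m ∈ B` and
`j ∈ Ioc q (4 q)`: `L < n j`, `n j < 2 Y * 4 q ≤ 8 L`, so `n j, m j ∈ IL L`, and
`RR Z 1 (n j) (m j) = RR Z 1 n m` (`(n j)^(-iγ) (m j)^(iγ) = n^(-iγ) m^(iγ)`,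
`Nat.cast_mul`, `natCast_mul_natCast_cpow`). Hence
`3 q ∑ n m ‖RR n m‖² = ∑ n m j ‖RR (n j) (m j)‖² ≤ D * QQ Z L`, because a pair `(x, y)` is
`(n j, m j)` for at most `d x ≤ D` triples (`j` divides `x` and determines `n, m`). Finally
`L < Y (q + 1) ≤ 2 Y q ≤ 3 Y q`. -/
def MONO_stmt : Prop := ∀ (Z : Finset ℂ) (Y L : ℕ) (B : Finset ℕ) (D : ℝ), 1 ≤ Y → Y ≤ L →
  (∀ n ∈ B, Y ≤ n ∧ n < 2 * Y) → (∀ k ∈ IL L, d k ≤ D) →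
  (L : ℝ) * ∑ n ∈ B, ∑ m ∈ B, ‖RR Z (fun _ => 1) n m‖ ^ 2 ≤ (Y : ℝ) * D * QQ Z L

/-- **DKS** (medium). uses: SHV_stmt, MONO_stmt; library: `divisor_bound`.
Proof. `Icc 1 K` is the disjoint union of `B i = {n ∈ Icc 1 K, 2^i ≤ n < 2^(i+1)}`,
`i < J := Nat.log 2 K + 1` (`i = Nat.log 2 n`). With `s i u = ∑ n ∈ B i, n^(-1/2) n^(-iu)`:
`DK K u ^ 2 ≤ J ∑ i, ‖s i u‖²` (Cauchy–Schwarz). SHV with `w n = n^(-1/2)`: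
`∑ ρ ρ' ‖s i (γ - γ' + v)‖² ≤ ∑ n m ∈ B i, n^(-1/2) m^(-1/2) ‖RR n m‖² ≤ 2^(-i) ∑ n m ∈ B i, ‖RR‖²`,
and MONO with `Y = 2^i ≤ K ≤ L` gives `L * (…) ≤ 2^(-i) 2^i D QQ Z L = D * QQ Z L`. Total
`≤ J² D QQ Z L`, `J ≤ 1 + log K / log 2 ≤ C T^(ε/4)`, `D = C (8 T^6)^(ε/12) = C' T^(ε/2)`.
(`QQ ≥ 0`.) -/
def DKS_stmt : Prop := ∀ ε : ℝ, 0 < ε → ∃ C : ℝ, 0 < C ∧ ∀ T : ℝ, 1 ≤ T → ∀ (Z : Finset ℂ)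
  (K L : ℕ), 1 ≤ K → K ≤ L → (L : ℝ) ≤ T ^ (6 : ℕ) → ∀ v : ℝ,
  (L : ℝ) * ∑ ρ ∈ Z, ∑ ρ' ∈ Z, DK K (ρ.im - ρ'.im + v) ^ 2 ≤ C * T ^ ε * QQ Z L

/-- **DTS** (medium). uses: nothing; library: `C2_cs`, `C2_gauss` (file `helper71/ED/C2`).
Proof. `τ = γ - γ'`, `V = |τ|/2 ≥ 0`. `Dt² ≤ (∫ e^(-v²)) ∫ v in (-V)..V, DK K (|τ| + v)² e^(-v²)
≤ 2 ∫ v, DK K (|τ| + v)² e^(-v²)`. Since `DK K (-u) = DK K u` (conjugation) and `|τ| = ± τ`,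
`DK K (|τ| + v)² ≤ DK K (τ + v)² + DK K (τ - v)²`. (`DK K` is continuous and bounded, so everything
is integrable against `e^(-v²)`.) Sum over the pairs and use the hypothesis at `v` and at `-v`:
`≤ 2 ∫ v, 2 B e^(-v²) ≤ 8 B`. -/
def DTS_stmt : Prop := ∀ (Z : Finset ℂ) (K : ℕ) (B : ℝ),
  (∀ v : ℝ, ∑ ρ ∈ Z, ∑ ρ' ∈ Z, DK K (ρ.im - ρ'.im + v) ^ 2 ≤ B) →
  ∑ ρ ∈ Z, ∑ ρ' ∈ Z, Dt K (|ρ.im - ρ'.im| / 2) |ρ.im - ρ'.im| ^ 2 ≤ 8 * B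

/-- Library statement (proved: `fun k hk => SS_refl_of k hk (X_line k) (X_strip k) (zeta_strip k)`):
the functional equation for the smooth sum. -/
def REFL_stmt : Prop := ∀ k : ℕ, 1 ≤ k → ∃ C T₀ : ℝ, 0 < C ∧ ∀ T : ℝ, T₀ ≤ T →
    ∀ M z τ : ℝ, 1 ≤ M → M ≤ T ^ (6 : ℕ) → 0 ≤ z → z ≤ 1 → Real.log T ≤ |τ| → |τ| ≤ T →
    ∀ K : ℕ, 1 ≤ K → (K : ℝ) ≤ T ^ (6 : ℕ) →
      ‖SS M z τ‖ ≤ C * (1 + T ^ k * (M * K) ^ (-((k : ℝ) - 1 / 2)) +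
        M ^ (1 / 2 : ℝ) * Dt K (|τ| / 2) |τ|)

/-- **RSQ** (medium). uses: REFL_stmt, DKS_stmt, DTS_stmt, QTR_stmt.
Proof. `k = ⌈1/2 + 1/(2ε)⌉₊ + 1`, `K = L` in REFL; `T ≥ 1`.
`T^k (M L)^(-(k - 1/2)) ≤ T^(k - (1+ε)(k - 1/2)) = T^(1/2 - ε (k - 1/2)) ≤ 1`, so every far term is
`‖SS‖ ≤ C (2 + M^(1/2) Dt)`, `‖SS‖² ≤ C² (8 + 2 M Dt²)`. Sum: DKS (with `ε`) and DTS give
`∑ Dt² ≤ 8 C' T^ε QQ Z L / L`; and `L ∑ 8 = 8 L Z.card² ≤ 8 QQ Z L ≤ 8 T^ε M QQ Z L` (QTR). -/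
def RSQ_stmt : Prop := ∀ ε : ℝ, 0 < ε → ∃ C T₀ : ℝ, 0 < C ∧ ∀ T : ℝ, T₀ ≤ T → ∀ Z : Finset ℂ,
  (∀ ρ ∈ Z, ∀ ρ' ∈ Z, |ρ.im - ρ'.im| ≤ T) → ∀ (M : ℝ) (L : ℕ), 1 ≤ M → M ≤ T ^ (6 : ℕ) → 1 ≤ L →
  (L : ℝ) ≤ T ^ (6 : ℕ) → T ^ (1 + ε) ≤ M * L → ∀ z : ℂ → ℂ → ℝ,
  (∀ ρ ∈ Z, ∀ ρ' ∈ Z, 0 ≤ z ρ ρ' ∧ z ρ ρ' ≤ 1) →
  (L : ℝ) * ∑ ρ ∈ Z, ∑ ρ' ∈ Z, (if Real.log T ≤ |ρ.im - ρ'.im| then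
    ‖SS M (z ρ ρ') (ρ.im - ρ'.im)‖ ^ 2 else 0) ≤ C * T ^ ε * M * QQ Z L

/-- **NEAR** (short). uses: nothing; library: `local_count`, `PS_near`, `PS_log`. The number of close
pairs. Compare `hnear` in `Pool/Agent/helper78/ED/P6.lean`; `log T ^ 2 ≤ C T^ε`. -/
def NEAR_stmt : Prop := ∀ ε : ℝ, 0 < ε → ∃ C T₀ : ℝ, 0 < C ∧ ∀ T : ℝ, T₀ ≤ T → ∀ σ : ℝ,
  1 / 2 ≤ σ → ∀ Z : Finset ℂ, Zer σ T Z →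
  ∑ ρ ∈ Z, ∑ ρ' ∈ Z, (if |ρ.im - ρ'.im| < Real.log T then (1 : ℝ) else 0)
    ≤ C * T ^ ε * (Z.card : ℝ)

/-! ## Part 2: the one-sided Halász–Montgomery inequality with zeta weights -/

/-- **HMA** (medium). uses: QLO_stmt; library: `LV_unim`.
Proof. `LV_unim` gives `c ρ` with `‖c ρ‖ ≤ 1`, `c ρ * DP N a γ = ‖DP N a γ‖`. With
`f ρ = ‖DP N a γ‖`, for every `x, y ≥ 1`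
`RR Z f x y = ∑ ρ, c ρ (∑ n, a n n^(-iγ)) x^(-iγ) y^(iγ) = ∑ n, a n * RR Z c (n * x) y`
(`n^(-iγ) x^(-iγ) = (n x)^(-iγ)` for natural numbers), so by Cauchy–Schwarz
`‖RR Z f x y‖² ≤ (∑ ‖a n‖²) ∑ n, ‖RR Z c (n x) y‖²`. Sum over `x, y ∈ IL L`, exchange the sums and
use QLO. -/
def HMA_stmt : Prop := ∀ (Z : Finset ℂ) (N L : ℕ) (a : ℕ → ℂ) (V : ℝ), 0 ≤ V →
  (∀ ρ ∈ Z, V ≤ ‖DP N a ρ.im‖) → ∃ c : ℂ → ℂ, (∀ ρ, ‖c ρ‖ ≤ 1) ∧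
    V ^ 2 * QQ Z L ≤ (∑ n ∈ Finset.Ioc N (2 * N), ‖a n‖ ^ 2) *
      ∑ n ∈ Finset.Ioc N (2 * N), ∑ x ∈ IL L, ∑ y ∈ IL L, ‖RR Z c (n * x) y‖ ^ 2

/-- **GRP** (short). uses: nothing.
Proof. `(n, x) ↦ n * x` maps `Ioc N (2N) ×ˢ IL L` into `Ioc (N L) (16 N L)` and the fibre over `k`
has at most `d k` elements (`n` divides `k` and determines `x`). -/
def GRP_stmt : Prop := ∀ (N L : ℕ) (D : ℝ) (F : ℕ → ℝ), (∀ k, 0 ≤ F k) →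
  (∀ k : ℕ, 1 ≤ k → k ≤ 16 * (N * L) → d k ≤ D) →
  ∑ n ∈ Finset.Ioc N (2 * N), ∑ x ∈ IL L, F (n * x)
    ≤ D * ∑ k ∈ Finset.Ioc (N * L) (16 * (N * L)), F k

/-- **DUA** (medium). uses: RID_stmt; library: `wg_sum`, `LV_wg_nonneg`; compare the second half of
`large_values_of` in `Pool/Agent/helper78/ED/LV.lean`.
Proof. For every `ρ, ρ'`: `HasSum (fun x => wg M x * x^(-iτ)) (SS M 0 τ)`, `τ = γ - γ'`. Hence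
(RID, sum over `y ∈ B` first) `x ↦ wg M x * ∑ y ∈ B, ‖RR Z c x y‖²` has the sum
`∑ ρ ρ', c ρ conj (c ρ') SS M 0 τ conj (PL B τ)`, whose norm is at most the right side; the terms are
`≥ 0` (`wg M 0 = 0` deals with `x = 0`), so the sum over `A` is at most the total. -/
def DUA_stmt : Prop := ∀ (Z : Finset ℂ) (c : ℂ → ℂ) (M : ℝ) (A B : Finset ℕ),
  (∀ ρ, ‖c ρ‖ ≤ 1) → 1 ≤ M → 0 ∉ A → 0 ∉ B →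
  ∑ x ∈ A, wg M x * ∑ y ∈ B, ‖RR Z c x y‖ ^ 2
    ≤ ∑ ρ ∈ Z, ∑ ρ' ∈ Z, ‖SS M 0 (ρ.im - ρ'.im)‖ * ‖PL B (ρ.im - ρ'.im)‖

/-- **ONE** (short). uses: HMA_stmt, GRP_stmt, DUA_stmt; library: `wg_lower`.
Proof. HMA; GRP with `F k = ∑ y ∈ IL L, ‖RR Z c k y‖²`; for `k ∈ Ioc (N L) (16 N L)`
`e^(-16) ≤ wg (N L) k` (`wg_lower` with `k = 4`), so `∑ k, F k ≤ e^16 ∑ k, wg (N L) k * F k`; DUA with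
`M = N L ≥ 1`, `A = Ioc (N L) (16 N L)`, `B = IL L`. -/
def ONE_stmt : Prop := ∀ (Z : Finset ℂ) (N L : ℕ) (a : ℕ → ℂ) (V D : ℝ), 1 ≤ N → 1 ≤ L → 0 ≤ V →
  (∀ k : ℕ, 1 ≤ k → k ≤ 16 * (N * L) → d k ≤ D) → (∀ ρ ∈ Z, V ≤ ‖DP N a ρ.im‖) →
  V ^ 2 * QQ Z L ≤ (∑ n ∈ Finset.Ioc N (2 * N), ‖a n‖ ^ 2) * (D * (Real.exp 16 *
    ∑ ρ ∈ Z, ∑ ρ' ∈ Z, ‖SS ((N : ℝ) * L) 0 (ρ.im - ρ'.im)‖ * ‖PL (IL L) (ρ.im - ρ'.im)‖))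

/-- **LVA** (medium). uses: ONE_stmt, RSQ_stmt, NEAR_stmt, QID_stmt; library: `SS_triv`,
`divisor_bound`.
Proof. ONE. `∑ ‖a n‖² ≤ N A²`; `D = C (16 T^5)^(ε/24) ≤ C' T^(ε/4)`. The pairs with `|τ| < log T`:
`‖SS‖ ≤ C N L` (`SS_triv`), `‖PL (IL L) τ‖ ≤ 7 L`, NEAR with `ε/4`: at most
`C T^(ε/4) N L² Z.card`. The other pairs: by Cauchy–Schwarz, RSQ (with `ε/2`, `M = N L`, `z = 0`;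
`T^(1+ε/2) ≤ N L L`) and QID at most
`(∑_far ‖SS‖²)^(1/2) (∑ ‖PL‖²)^(1/2) ≤ (C T^(ε/2) N QQ)^(1/2) QQ^(1/2) = C^(1/2) T^(ε/4) N^(1/2) QQ`
(`RSQ` gives `L * ∑ ≤ C T^(ε/2) (N L) QQ`; cancel `L`). For `ρ, ρ' ∈ Z`, `|γ - γ'| ≤ T` by `Zer`. -/
def LVA_stmt : Prop := ∀ ε : ℝ, 0 < ε → ∃ C T₀ : ℝ, 0 < C ∧ ∀ T : ℝ, T₀ ≤ T → ∀ σ : ℝ,
  1 / 2 ≤ σ → ∀ Z : Finset ℂ, Zer σ T Z → ∀ N L : ℕ, 1 ≤ N → 1 ≤ L →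
  (N : ℝ) * L ≤ T ^ (5 : ℕ) → T ^ (1 + ε) ≤ (N : ℝ) * L * L →
  ∀ (a : ℕ → ℂ) (A V : ℝ), 0 ≤ V → (∀ n ∈ Finset.Ioc N (2 * N), ‖a n‖ ≤ A) →
  (∀ ρ ∈ Z, V ≤ ‖DP N a ρ.im‖) →
  V ^ 2 * QQ Z L ≤ C * A ^ 2 * T ^ ε *
    ((N : ℝ) ^ 2 * (L : ℝ) ^ 2 * (Z.card : ℝ) + (N : ℝ) ^ (3 / 2 : ℝ) * QQ Z L)

/-- **PSM** (medium). uses: RSQ_stmt, NEAR_stmt; library: `SS_triv`. Compare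
`Pool/Agent/helper78/ED/P6.lean`.
Proof. `z = Re ρ + Re ρ' - 2 σ ∈ [0, 1]` since `1/2 ≤ σ ≤ Re ρ < 1`. Pairs with `|τ| < log T`:
`≤ C M` each, NEAR. The others: Cauchy–Schwarz over all pairs,
`∑_far ‖SS‖ ≤ (Z.card²)^(1/2) (∑_far ‖SS‖²)^(1/2) ≤ Z.card (C T^ε M QQ / L)^(1/2)` (RSQ with `ε`;
`T^(ε/2) ≤ T^ε`). -/
def PSM_stmt : Prop := ∀ ε : ℝ, 0 < ε → ∃ C T₀ : ℝ, 0 < C ∧ ∀ T : ℝ, T₀ ≤ T → ∀ (σ M : ℝ) (L : ℕ),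
  1 / 2 ≤ σ → 1 ≤ M → M ≤ T ^ (6 : ℕ) → 1 ≤ L → (L : ℝ) ≤ T ^ (6 : ℕ) → T ^ (1 + ε) ≤ M * L →
  ∀ Z : Finset ℂ, Zer σ T Z →
  ∑ ρ ∈ Z, ∑ ρ' ∈ Z, ‖SS M (ρ.re + ρ'.re - 2 * σ) (ρ.im - ρ'.im)‖
    ≤ C * T ^ ε * ((Z.card : ℝ) * M + (Z.card : ℝ) * (M * QQ Z L / L) ^ (1 / 2 : ℝ))

/-! ## Part 3: from zeros to the vertical line, choice of the power, algebra -/

/-- **TAY** (medium). uses: nothing. The value at `ρ = β + iγ` against values on `Re = σ`.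
Proof. `x = β - σ ∈ [0, 1/2]`, `u n = log (n/N) ∈ [0, log 2] ⊂ [0, 1]`, `b n = c n (N/n)^σ` (so
`‖b n‖ ≤ ‖c n‖`), `a j n = b n (u n)^j`. `n^(-ρ) = N^(-σ-x) (N/n)^σ e^(-x u n) n^(-iγ)`, so
`N^(σ+x) D(ρ) = ∑ n, b n n^(-iγ) e^(-x u n)`. Taylor: `|e^(-y) - ∑ j < J, (-y)^j/j!| ≤ y^J / J! * 2`
(or any such bound) for `0 ≤ y ≤ 1/2`, so `N^(σ+x) D(ρ) = ∑ j < J, ((-x)^j/j!) DP N (a j) γ + E`,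
`|E| ≤ N C₁ T^κ 2 (1/2)^J`. If all `‖DP N (a j) γ‖ < N^σ/(4 C₁ log T)` then
`N^σ/(C₁ log T) ≤ N^(σ+x) |D(ρ)| < 2 N^σ/(4 C₁ log T) + |E|` (`x^j/j! ≤ 2^(-j)`), so
`|E| > N^σ/(2 C₁ log T)`; but `J ≥ 8 log T` gives `(1/2)^J ≤ T^(-5)`, and `N ≤ T`, `κ ≤ 1`:
`|E| ≤ 2 C₁ T^(-3)`, a contradiction for large `T`. -/
def TAY_stmt : Prop := ∀ C₁ : ℝ, 0 < C₁ → ∃ T₀ : ℝ, ∀ T κ σ : ℝ, T₀ ≤ T → 0 ≤ κ → κ ≤ 1 →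
  1 / 2 ≤ σ → ∀ (c : ℕ → ℂ) (N : ℕ), 1 ≤ N → (N : ℝ) ≤ T →
  (∀ n ∈ Finset.Ioc N (2 * N), ‖c n‖ ≤ C₁ * T ^ κ) → ∀ ρ : ℂ, σ ≤ ρ.re → ρ.re ≤ 1 →
  1 / (C₁ * Real.log T) ≤ ‖∑ n ∈ Finset.Ioc N (2 * N), c n * (n : ℂ) ^ (-ρ)‖ →
  ∃ j ∈ Finset.range (⌊8 * Real.log T⌋₊ + 1), (N : ℝ) ^ σ / (4 * C₁ * Real.log T) ≤
    ‖DP N (fun n => c n * ((((N : ℝ) / n) ^ σ * Real.log ((n : ℝ) / N) ^ j : ℝ) : ℂ)) ρ.im‖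

/-- **CPW** (short). uses: nothing. Choice of the power.
Proof. `T ≥ T₀` with `T₀^δ ≥ 16`. `N ≥ T^δ/2 ≥ T^(δ/2) ≥ 4`, `k = ⌊log X / log N⌋₊`,
`X = T^(1+2δ)`: `N^k ≤ X ≤ N^(k+1)`; `N² ≤ T^(1+2δ) = X` so `k ≥ 2`; `k ≤ (1+2δ)/(δ/2) ≤ 3/δ`. -/
def CPW_stmt : Prop := ∀ δ : ℝ, 0 < δ → δ ≤ 1 / 4 → ∃ T₀ : ℝ, ∀ T : ℝ, T₀ ≤ T → ∀ N : ℕ,
  T ^ δ / 2 ≤ (N : ℝ) → (N : ℝ) ≤ T ^ (1 / 2 + δ) → ∃ k : ℕ, 2 ≤ k ∧ (k : ℝ) ≤ 3 / δ ∧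
    (N : ℝ) ^ k ≤ T ^ (1 + 2 * δ) ∧ T ^ (1 + 2 * δ) ≤ (N : ℝ) ^ (k + 1)

/-- **ALG** (medium, real numbers only). uses: nothing.
Proof. `R = 0` is trivial. Let `M = N^k`. Divide the first hypothesis by `R`:
`R ≤ A M^(2-2σ) + A M^(3/2-2σ) (Q/L)^(1/2)`. If the first term is the larger one:
`R ≤ 2 A M^(2-2σ) ≤ 2 A X^(2-2σ)`. Otherwise `R² ≤ 4 A² M^(3-4σ) Q/L ≤ 4 A² M^(3-4σ) B N^(2-2σ) L R`,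
`R ≤ 4 A² B M^(3-4σ) N^(2-2σ) L ≤ 8 A² B M^(3-4σ) N^(2-2σ) (X/N)^(1/2)
= 8 A² B X^(1/2) N^(-(4σ-3)(2k+1)/2)`, and `N^(2k+1) ≥ N^(k+1) ≥ X`, so this is at most
`8 A² B X^(1/2 - (4σ-3)/2) = 8 A² B X^(2-2σ)`. -/
def ALG_stmt : Prop := ∀ (R Q A B N L X σ : ℝ) (k : ℕ), 0 ≤ R → 0 ≤ Q → 1 ≤ A → 1 ≤ B → 1 ≤ N →
  0 < L → 1 ≤ X → 2 ≤ k → N ^ k ≤ X → X ≤ N ^ (k + 1) → L ≤ 2 * (X / N) ^ (1 / 2 : ℝ) →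
  3 / 4 ≤ σ → σ ≤ 1 →
  R ^ 2 ≤ A * (N ^ k * (N ^ k) ^ (-(2 * σ))) * (R * N ^ k + R * (N ^ k * Q / L) ^ (1 / 2 : ℝ)) →
  Q ≤ B * (N ^ (2 - 2 * σ) * L ^ 2 * R) → R ≤ 8 * A ^ 2 * B * X ^ (2 * (1 - σ))

/-- **ABS** (medium). uses: LVA_stmt. The absorption: upper bound for `QQ`.
Proof. Choose `κ = δ (s₀ - 3/4)/8`, `ε₁ = min (min ε (2 δ)) (δ (s₀ - 3/4)/8) / 4` and LVA with `ε₁`.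
`L = ⌈(X/N)^(1/2)⌉₊`, `X = T^(1+2δ)`; `X/N ≥ 1`, so `(X/N)^(1/2) ≤ L ≤ 2 (X/N)^(1/2)`,
`N L L ≥ X ≥ T^(1+ε₁)`, `N L ≤ T^5`. With `V = N^σ/(4 C₁ log T)`, `A = C₁ T^κ`, LVA says
`V² Q ≤ C A² T^ε₁ (N² L² R + N^(3/2) Q)`. Since `N ≥ T^δ/2`,
`V² / N^(3/2) = N^(2σ-3/2)/(16 C₁² log² T) ≥ (T^δ/2)^(2 (s₀ - 3/4))/(16 C₁² log² T)
≥ 2 C C₁² T^(2κ+ε₁)` for large `T` (`2κ + ε₁ < 2δ(s₀ - 3/4)`; `2σ - 3/2 ≥ 2(s₀ - 3/4) > 0` and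
`N ≥ 1`). So the term with `N^(3/2) Q` is at most `V² Q/2` and
`Q ≤ 2 C A² T^ε₁ N² L² R / V² = 32 C C₁⁴ log² T T^(2κ+ε₁) N^(2-2σ) L² R ≤ C' T^ε (N^(2-2σ) L² R)`
(if `κ, ε₁` are also small against `ε`: take `κ = min (ε/8) (δ (s₀ - 3/4)/8)`). -/
def ABS_stmt : Prop := ∀ s₀ ε δ : ℝ, 3 / 4 < s₀ → 0 < ε → 0 < δ → δ ≤ 1 / 4 → ∃ κ : ℝ, 0 < κ ∧
  κ ≤ 1 ∧ ∀ κ' : ℝ, 0 < κ' → κ' ≤ κ → ∀ C₁ : ℝ, 0 < C₁ → ∃ C T₀ : ℝ, 0 < C ∧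
  ∀ T : ℝ, T₀ ≤ T → ∀ σ : ℝ, s₀ ≤ σ → σ ≤ 1 → ∀ Z : Finset ℂ, Zer σ T Z →
  ∀ N : ℕ, T ^ δ / 2 ≤ (N : ℝ) → (N : ℝ) ≤ T ^ (1 / 2 + δ) → ∀ a : ℕ → ℂ,
  (∀ n ∈ Finset.Ioc N (2 * N), ‖a n‖ ≤ C₁ * T ^ κ') →
  (∀ ρ ∈ Z, (N : ℝ) ^ σ / (4 * C₁ * Real.log T) ≤ ‖DP N a ρ.im‖) → ∃ L : ℕ, 1 ≤ L ∧
    (T ^ (1 + 2 * δ) / N) ^ (1 / 2 : ℝ) ≤ (L : ℝ) ∧
    (L : ℝ) ≤ 2 * (T ^ (1 + 2 * δ) / N) ^ (1 / 2 : ℝ) ∧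
    QQ Z L ≤ C * T ^ ε * ((N : ℝ) ^ (2 - 2 * σ) * (L : ℝ) ^ 2 * (Z.card : ℝ))

/-- **CLA** (LONG). uses: ABS_stmt, PSM_stmt, CPW_stmt, ALG_stmt; library: `large_values_of`,
`pow_poly`, `CO_log`, `CO_G`, `wg_lower`, `wg_sum`; compare `class_one6_of` in
`Pool/Agent/helper78/ED/C6.lean` (copy it).
The class one theorem for a set on which also one polynomial on the vertical line is large.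
Proof. `K = 3/δ + 1`, `ε' = ε/32`; `κ` = the minimum of the `κ` of ABS (with `ε'`) and `ε/(64 K)`.
Let `X = T^(1+2δ)`, `R = Z.card`, `L` from ABS, `k` from CPW, `M = N^k`. As in `class_one6_of`
(`pow_poly`, `large_values_of`, `CO_G`, `CO_log`) and PSM (with `ε₂ = min ε' (2 δ)`):
`R² ≤ A (M M^(-2σ)) (R M + R (M Q / L)^(1/2))`, `A = D T^(3 ε' + 2 K κ)`, `Q = QQ Z L`; here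
`M L ≥ X ≥ T^(1+ε₂)`: `N^k L ≥ N^k (X/N)^(1/2)` and `N^(2k-1) ≥ N^(k+1) ≥ X` (`k ≥ 2`). ABS:
`Q ≤ B (N^(2-2σ) L² R)`, `B = C T^ε'`. ALG: `R ≤ 8 A² B X^(2(1-σ))`, `A² B ≤ C' T^ε`. -/
def CLA_stmt : Prop := ∀ s₀ ε δ : ℝ, 3 / 4 < s₀ → 0 < ε → 0 < δ → δ ≤ 1 / 4 → ∃ κ : ℝ, 0 < κ ∧
  κ ≤ 1 ∧ ∀ C₁ : ℝ, 0 < C₁ → ∃ C T₀ : ℝ, 0 < C ∧ ∀ T : ℝ, T₀ ≤ T → ∀ σ : ℝ, s₀ ≤ σ → σ ≤ 1 →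
  ∀ N : ℕ, T ^ δ / 2 ≤ (N : ℝ) → (N : ℝ) ≤ T ^ (1 / 2 + δ) → ∀ c a : ℕ → ℂ,
  (∀ n ∈ Finset.Ioc N (2 * N), ‖c n‖ ≤ C₁ * T ^ κ) →
  (∀ n ∈ Finset.Ioc N (2 * N), ‖a n‖ ≤ C₁ * T ^ κ) → ∀ Z : Finset ℂ, Zer σ T Z →
  (∀ ρ ∈ Z, 1 / (C₁ * Real.log T) ≤ ‖∑ n ∈ Finset.Ioc N (2 * N), c n * (n : ℂ) ^ (-ρ)‖) →
  (∀ ρ ∈ Z, (N : ℝ) ^ σ / (4 * C₁ * Real.log T) ≤ ‖DP N a ρ.im‖) →
    (Z.card : ℝ) ≤ C * T ^ ε * (T ^ (1 + 2 * δ)) ^ (2 * (1 - σ))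

/-- **CLB** (medium). uses: CLA_stmt, TAY_stmt. The class one theorem.
Proof. `κ` from CLA with `ε/2`. `2N ≤ T` for large `T`. For `j < J := ⌊8 log T⌋₊ + 1` let `Z j` be the
set of the `ρ ∈ Z` with `N^σ/(4 C₁ log T) ≤ ‖DP N (a j) γ‖`, `a j n = c n (N/n)^σ log(n/N)^j`
(`‖a j n‖ ≤ ‖c n‖` for `N < n ≤ 2N`). TAY: `Z = ⋃ j, Z j` (`Re ρ < 1`,
`riemannZeta_ne_zero_of_one_le_re`). CLA bounds every `Z j`, and `J ≤ C' T^(ε/2)`. -/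
def CLB_stmt : Prop := ∀ s₀ ε δ : ℝ, 3 / 4 < s₀ → 0 < ε → 0 < δ → δ ≤ 1 / 4 → ∃ κ : ℝ, 0 < κ ∧
  ∀ C₁ : ℝ, 0 < C₁ → ∃ C T₀ : ℝ, 0 < C ∧ ∀ T : ℝ, T₀ ≤ T → ∀ σ : ℝ, s₀ ≤ σ → σ ≤ 1 →
  ∀ c : ℕ → ℂ, (∀ n : ℕ, 1 ≤ n → (n : ℝ) ≤ T → ‖c n‖ ≤ C₁ * T ^ κ) →
  ∀ N : ℕ, T ^ δ / 2 ≤ (N : ℝ) → (N : ℝ) ≤ T ^ (1 / 2 + δ) → ∀ Z : Finset ℂ, Zer σ T Z →
  (∀ ρ ∈ Z, 1 / (C₁ * Real.log T) ≤ ‖∑ n ∈ Finset.Ioc N (2 * N), c n * (n : ℂ) ^ (-ρ)‖) →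
    (Z.card : ℝ) ≤ C * T ^ ε * (T ^ (1 + 2 * δ)) ^ (2 * (1 - σ))

/-! ## Part 4: assembly -/

/-- Library statement (proved: `detect` in `helper78/ED/Main.lean`): detection of zeros. -/
def DET_stmt : Prop := ∀ (δ κ η : ℝ), 0 < δ → δ ≤ 1 / 4 → 0 < κ → 0 < η → η ≤ 1 / 8 →
  ∃ (c : ℝ → ℕ → ℂ) (C T₀ : ℝ), 0 < C ∧ ∀ T : ℝ, T₀ ≤ T →
  (∀ n : ℕ, 1 ≤ n → (n : ℝ) ≤ T → ‖c T n‖ ≤ C * T ^ κ) ∧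
  ∀ ρ : ℂ, riemannZeta ρ = 0 → 1 / 2 + 2 * η ≤ ρ.re → T ≤ ρ.im → ρ.im ≤ 2 * T →
    1 / 4 ≤ ‖∑ n ∈ Finset.Ioc ⌊T ^ δ⌋₊ ⌊T ^ (1 / 2 + δ)⌋₊, c T n * (n : ℂ) ^ (-ρ)‖ +
      C * T ^ δ * Real.sqrt T ^ (1 / 2 + η - ρ.re) * Zt η (T / 2) ρ.im

/-- Library statement (proved: `class_two_of local_count`). -/
def TWO_stmt : Prop := ∀ (η ε : ℝ), 0 < η → η ≤ 1 / 8 → 0 < ε → ∃ C T₀ : ℝ, 0 < C ∧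
  ∀ T : ℝ, T₀ ≤ T → ∀ Z : Finset ℂ, Zer (1 / 2) T Z →
  ∑ ρ ∈ Z, Zt η (T / 2) ρ.im ^ 4 ≤ C * T ^ (1 + ε)

/-- **COR** (LONG). uses: CLB_stmt, DET_stmt, TWO_stmt; library: `Pool.Agent.helper71.ED.CR`
(`CR_dyadic`, `CR_cut`, `CR_two` with `X = T`); copy `core6_of` in `helper71/ED/R6.lean`.
Proof. As in `core6_of` (with `η, δ = min (1/8 resp. 1/4) (ε/64)`): the zeros of class two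
(`1/8 ≤ C T^δ …Zt`) are at most `C T^(ε/4) T^(2(1-σ))` (`CR_two`, fourth roots), the others lie in
`J ≤ 3 log T` sets to which CLB applies (with `ε/2`);
`(T^(1+2δ))^(2(1-σ)) ≤ T^(2(1-σ)) T^(4δ(1-σ))`, `4 δ (1-σ) ≤ δ ≤ ε/64`. -/
def COR_stmt : Prop := ∀ s₀ ε : ℝ, 3 / 4 < s₀ → 0 < ε → ∃ C T₀ : ℝ, 0 < C ∧ ∀ T : ℝ, T₀ ≤ T →
  ∀ σ : ℝ, s₀ ≤ σ → σ ≤ 1 → ∀ Z : Finset ℂ, Zer σ T Z →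
    (Z.card : ℝ) ≤ C * T ^ ε * T ^ (2 * (1 - σ))

/-- **FIN** (medium). uses: COR_stmt; library: `Pool.Agent.helper97.ED.FN` (`FN_low`),
`helper63/ED/LC` (`mult_le`); compare `final_of` in `helper97/ED/FN.lean` and `final6_of` in
`helper78/ED/F6.lean`.
Proof. `T₁ = max T₀ 2` with `T₀` from COR (with `ε/4`). The zeros with `Im ρ ≤ 2 T₁` contribute at
most a constant (`FN_low`) `≤ C T^(2(1-σ)+ε)` (`T ≥ 1`). The zeros with `Im ρ > 2 T₁`: dyadic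
decomposition `T/2^(j+1) < Im ρ ≤ T/2^j`, `j < J ≤ 2 log T + 1`, each piece is
`Zer σ (T/2^(j+1)) _` with `T/2^(j+1) ≥ T₁`, so it has at most `C T^(ε/4) T^(2(1-σ))` elements.
Multiplicities: `mult ρ ≤ C log T`. Logarithms are absorbed by `T^ε`. -/
def FIN_stmt : Prop := ∀ s₀ ε : ℝ, 3 / 4 < s₀ → 0 < ε → ∃ C : ℝ, 0 < C ∧ ∀ T σ : ℝ, 1 ≤ T →
  s₀ ≤ σ → σ ≤ 1 → ∀ Z : Finset ℂ,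
  (∀ ρ ∈ Z, riemannZeta ρ = 0 ∧ σ ≤ ρ.re ∧ 0 < ρ.im ∧ ρ.im ≤ T) →
    ∑ ρ ∈ Z, (mult ρ : ℝ) ≤ C * T ^ (2 * (1 - σ) + ε)

end Pool.Agent.DH
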